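import Pool.Agent.H3RD.W830.RD.Stm

/-! # Project RD, part LPG -/

set_option autoImplicit false

namespace Pool.Agent.W440.RD.LPG

open Pool.Agent.W830.RD
open scoped Classical

theorem main : S_LPG := by
  intro n L E z _ hF hL x
  have up : ∀ d : ℕ, ∀ w : Fin n, (w : ℕ) = z + d → gle E z w := by
    intro d
    induction d using Nat.strong_induction_on with
    | _ d ih =>
      intro w hw
      by_cases hd : d = 0
      · subst hd
        have : w = z := Fin.ext (by omega)
        rw [this]
        exact Relation.ReflTransGen.refl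
      · obtain ⟨u, hu1, hu2, hu3⟩ : ∃ u : Fin n, (z : ℕ) ≤ (u : ℕ) ∧ u < w ∧ (u, w) ∈ E := by
          by_cases hdL : d ≤ L
          · exact hL.1 d (by omega) hdL w hw
          · obtain ⟨u, h1, h2, h3⟩ := hF.1 z w (by omega)
            exact ⟨u, h1, h2, h3⟩
        have hu2' : (u : ℕ) < (w : ℕ) := hu2
        have h := ih ((u : ℕ) - z) (by omega) u (by omega)
        exact Relation.ReflTransGen.tail h hu3
  have down : ∀ d : ℕ, ∀ w : Fin n, (w : ℕ) + d = z → gle E w z := by
    intro d
    induction d using Nat.strong_induction_on with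
    | _ d ih =>
      intro w hw
      by_cases hd : d = 0
      · subst hd
        have : w = z := Fin.ext (by omega)
        rw [this]
        exact Relation.ReflTransGen.refl
      · obtain ⟨u, hu1, hu2, hu3⟩ : ∃ u : Fin n, (u : ℕ) ≤ (z : ℕ) ∧ w < u ∧ (w, u) ∈ E := by
          by_cases hdL : d ≤ L
          · exact hL.2 d (by omega) hdL w hw
          · obtain ⟨u, h1, h2, h3⟩ := hF.2 w z (by omega)
            exact ⟨u, h1, h2, h3⟩
        have hu2' : (w : ℕ) < (u : ℕ) := hu2
        have h := ih ((z : ℕ) - u) (by omega) u (by omega)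
        exact Relation.ReflTransGen.head hu3 h
  rcases le_total (x : ℕ) (z : ℕ) with h | h
  · exact Or.inl (down ((z : ℕ) - x) x (by omega))
  · exact Or.inr (up ((x : ℕ) - z) x (by omega))

end Pool.Agent.W440.RD.LPG
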